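import Pool.Agent.Helper72_Cut.Statements

/-!
# Squad MP_1dbb29_pr : module D3 (CUT)
-/

namespace H98C

open Finset Filter Topology H72C

theorem cut (hM : MONO_stmt) : CUT_stmt := by
  intro G c ρ hc hρ hconn hseq
  rintro ⟨a, b, f, hab, hba, hf01, hft, hfb, hlim⟩
  obtain ⟨c0, hc0⟩ : ∃ c0, f c0 < c := (hft.eventually_lt_const hc).exists
  obtain ⟨c1, hc1⟩ : ∃ c1, 1 - c < f c1 :=
    (hfb.eventually_const_lt (show 1 - c < 1 by linarith)).exists
  set δ : ℝ := ρ / (2 * (2 + ρ)) with hδ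
  have hδ0 : 0 < δ := by positivity
  have hδ1 : δ * (2 + ρ) = ρ / 2 := by rw [hδ]; field_simp
  have hδ2 : δ ≤ 1 / 2 := by
    rw [hδ, div_le_iff₀ (by positivity)]; linarith
  set K : ℝ := 1 + |c0| + |c1| with hK
  have hK0 : 0 < K := by positivity
  have e1 : ∀ᶠ n in atTop, tvd (G n) ⌊a n + c0 * b n⌋₊ < c := (hlim c0).eventually_lt_const hc0
  have e2 : ∀ᶠ n in atTop, 1 - c < tvd (G n) ⌊a n + c1 * b n⌋₊ :=
    (hlim c1).eventually_const_lt hc1
  have e3 : ∀ᶠ n in atTop, b n / a n < δ / K := hba.eventually_lt_const (by positivity)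
  obtain ⟨N0, hN0⟩ := eventually_atTop.1 (e1.and (e2.and (e3.and (eventually_ge_atTop 2))))
  obtain ⟨N1, hN1⟩ := exists_nat_gt (4 * (1 + ρ) / ρ)
  obtain ⟨n, hn, t1, t2, ht1, ht12, hd1, hd2⟩ := hseq (max N0 N1)
  obtain ⟨h1, h2, h3, hn2⟩ := hN0 n (le_trans (le_max_left _ _) hn)
  obtain ⟨ha, hb⟩ := hab n hn2
  have hmono := hM n (G n) hn2 (hconn n hn2)
  have hbK : b n * K < δ * a n := by
    rw [div_lt_iff₀ ha] at h3
    have := mul_lt_mul_of_pos_right h3 hK0
    calc b n * K < δ / K * a n * K := this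
      _ = δ * a n := by field_simp
  have hc0b : c0 * b n ≤ δ * a n := by
    have : c0 * b n ≤ K * b n := by
      apply mul_le_mul_of_nonneg_right _ hb.le
      have := le_abs_self c0
      have := abs_nonneg c1
      linarith
    linarith
  have hc1b : -(δ * a n) ≤ c1 * b n := by
    have : -K * b n ≤ c1 * b n := by
      apply mul_le_mul_of_nonneg_right _ hb.le
      have := neg_abs_le c1
      have := abs_nonneg c0
      linarith
    linarith
  -- t2 < a + c0 b
  have ht2 : (t2 : ℝ) < (1 + δ) * a n := by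
    by_contra hcon
    push Not at hcon
    have : ⌊a n + c0 * b n⌋₊ ≤ t2 := by
      apply Nat.floor_le_of_le
      linarith
    have := hmono _ _ this
    linarith
  have ht1' : (1 - δ) * a n - 1 < t1 := by
    by_contra hcon
    push Not at hcon
    have : t1 ≤ ⌊a n + c1 * b n⌋₊ := by
      apply Nat.le_floor
      linarith
    have := hmono _ _ this
    linarith
  have hkey : (1 + ρ) * ((1 - δ) * a n - 1) < (1 + δ) * a n := by
    have : (1 + ρ) * ((1 - δ) * a n - 1) < (1 + ρ) * t1 :=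
      mul_lt_mul_of_pos_left ht1' (by linarith)
    linarith
  have hkey2 : ρ / 2 * a n < 1 + ρ := by
    have : (1 + ρ) * ((1 - δ) * a n - 1) - (1 + δ) * a n =
      (ρ - δ * (2 + ρ)) * a n - (1 + ρ) := by ring
    rw [hδ1] at this
    nlinarith
  have ht1N : (N1 : ℝ) ≤ t1 := by exact_mod_cast le_trans (le_max_right _ _) ht1
  have ht12' : (t1 : ℝ) ≤ t2 := by
    have h0 : (0 : ℝ) ≤ t1 := Nat.cast_nonneg _
    nlinarith
  have hfin : (1 + δ) * a n ≤ 4 * (1 + ρ) / ρ := by
    have h5 : a n < 2 * (1 + ρ) / ρ := by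
      rw [lt_div_iff₀ hρ]; linarith
    have h6 : (1 + δ) * a n ≤ 2 * a n := by nlinarith
    have h7 : 4 * (1 + ρ) / ρ = 2 * (2 * (1 + ρ) / ρ) := by ring
    linarith
  linarith

end H98C
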