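import Pool.Agent.Helper72_Cut.Statements

/-!
# Squad MP_1dbb29_pr : module B5 (LADL)
-/

namespace H98C

open Finset H72C

theorem exp_le_quad {x : ℝ} (h0 : 0 ≤ x) (h1 : x ≤ 1) : Real.exp x ≤ 1 + x + x ^ 2 := by
  have := Real.abs_exp_sub_one_sub_id_le (x := x) (by rw [abs_of_nonneg h0]; exact h1)
  have := (abs_le.1 this).2
  linarith

theorem exp_neg_le_quad {x : ℝ} (h0 : 0 ≤ x) : Real.exp (-x) ≤ 1 - x + x ^ 2 / 2 := by
  -- 1 ≤ (1 - x + x²/2) e^x
  have h1 : 1 + x + x ^ 2 / 2 ≤ Real.exp x := Real.quadratic_le_exp_of_nonneg h0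
  have hpos : 0 < 1 - x + x ^ 2 / 2 := by nlinarith [sq_nonneg (x - 1)]
  have h2 : 1 ≤ (1 - x + x ^ 2 / 2) * Real.exp x := by
    have : (1 - x + x ^ 2 / 2) * (1 + x + x ^ 2 / 2) ≤ (1 - x + x ^ 2 / 2) * Real.exp x :=
      mul_le_mul_of_nonneg_left h1 hpos.le
    have h3 : (1 - x + x ^ 2 / 2) * (1 + x + x ^ 2 / 2) = 1 + x ^ 4 / 4 := by ring
    have : 0 ≤ x ^ 4 := by positivity
    linarith
  rw [Real.exp_neg, inv_le_iff_one_le_mul₀ (Real.exp_pos x)]
  exact h2

theorem step_bound {u s v r lam ε : ℝ} (hu : 0 < u) (hv : 0 ≤ v) (hs : 0 ≤ s) (hr : 0 ≤ r)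
    (hlam : 0 < lam) (hε1 : ε ≤ 1) (hls : lam * s ≤ ε) (hlr : v * (lam * r) ≤ v * ε)
    (hus : u * s ≤ 4 / 3) (hvr : v * r ≤ 1 / 3) (hd : u * s - v * r = 1) :
    u * (Real.exp (lam * s) - 1) + v * (Real.exp (-(lam * r)) - 1) ≤ (1 + 3 / 2 * ε) * lam := by
  have h1 : Real.exp (lam * s) - 1 ≤ lam * s + (lam * s) ^ 2 := by
    have := exp_le_quad (x := lam * s) (by positivity) (by linarith)
    linarith
  have h2 : Real.exp (-(lam * r)) - 1 ≤ -(lam * r) + (lam * r) ^ 2 / 2 := by
    have := exp_neg_le_quad (x := lam * r) (by positivity)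
    linarith
  have h3 : u * (Real.exp (lam * s) - 1) ≤ u * (lam * s + (lam * s) ^ 2) :=
    mul_le_mul_of_nonneg_left h1 hu.le
  have h4 : v * (Real.exp (-(lam * r)) - 1) ≤ v * (-(lam * r) + (lam * r) ^ 2 / 2) :=
    mul_le_mul_of_nonneg_left h2 hv
  have hε0 : 0 ≤ ε := le_trans (by positivity) hls
  have h5 : u * (lam * s) ^ 2 ≤ 4 / 3 * ε * lam := by
    calc u * (lam * s) ^ 2 = (u * s) * (lam * s) * lam := by ring
      _ ≤ (4 / 3) * ε * lam := by
        apply mul_le_mul_of_nonneg_right _ hlam.le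
        exact mul_le_mul hus hls (by positivity) (by norm_num)
  have h6 : v * ((lam * r) ^ 2 / 2) ≤ 1 / 6 * ε * lam := by
    calc v * ((lam * r) ^ 2 / 2) = (v * (lam * r)) * r * lam / 2 := by ring
      _ ≤ (v * ε) * r * lam / 2 := by gcongr
      _ = (v * r) * ε * lam / 2 := by ring
      _ ≤ (1 / 3) * ε * lam / 2 := by gcongr
      _ = 1 / 6 * ε * lam := by ring
  have h7 : u * (lam * s + (lam * s) ^ 2) + v * (-(lam * r) + (lam * r) ^ 2 / 2) =
      (u * s - v * r) * lam + u * (lam * s) ^ 2 + v * ((lam * r) ^ 2 / 2) := by ring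
  rw [hd] at h7
  linarith

theorem sS_pos {U : ℕ → ℝ} {m : ℕ} (hU : GoodU U m) {j : ℕ} (hj : j ≤ m) : 0 ≤ sS U j := by
  unfold sS
  have : (0 : ℝ) < U j := hU.pos j hj
  have h4 : ((1 : ℝ) / 4) ^ (j + 1) ≤ 1 := pow_le_one₀ (by norm_num) (by norm_num)
  apply div_nonneg _ this.le
  have : 0 ≤ 1 - ((1 : ℝ) / 4) ^ (j + 1) := by linarith
  positivity

theorem U_sS {U : ℕ → ℝ} {m : ℕ} (hU : GoodU U m) {j : ℕ} (hj : j ≤ m) :
    U j * sS U j = (4 / 3) * (1 - (1 / 4) ^ (j + 1)) := by
  unfold sS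
  have : (0 : ℝ) < U j := hU.pos j hj
  field_simp

theorem bIt_succ (U : ℕ → ℝ) (m y : ℕ) (φ : ℕ → ℝ) (t : ℕ) :
    bIt U m y φ (t + 1) = BD U m y (bIt U m y φ t) := by
  unfold bIt
  rw [Function.iterate_succ_apply']

theorem ladl_aux (U : ℕ → ℝ) (m : ℕ) (lam ε : ℝ) (hU : GoodU U m) (hlam : 0 < lam) (hε : 0 < ε)
    (hε1 : ε ≤ 1) (hle : ∀ j, j ≤ m → lam * (4 / 3) ≤ ε * U j) (t : ℕ) :
    ∀ j, j ≤ m → 1 - bIt U m 0 (fun _ => 1) t j ≤
      (1 + (1 + 3 / 2 * ε) * lam) ^ t * Real.exp (lam * (SS U j - SS U m)) := by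
  induction t with
  | zero =>
    intro j hj
    have : bIt U m 0 (fun _ => 1) 0 j = 1 := by
      unfold bIt
      simp [hj]
    rw [this]
    have := Real.exp_pos (lam * (SS U j - SS U m))
    simp only [pow_zero, one_mul]
    linarith
  | succ t ih =>
    intro j hj
    set R : ℝ := 1 + (1 + 3 / 2 * ε) * lam with hR
    have hR1 : 1 ≤ R := by
      rw [hR]
      have : 0 ≤ (1 + 3 / 2 * ε) * lam := by positivity
      linarith
    have hRt : 1 ≤ R ^ t := one_le_pow₀ hR1
    have hRt0 : 0 < R ^ t := by linarith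
    rw [bIt_succ]
    set F := bIt U m 0 (fun _ => 1) t with hF
    have hUj := hU.pos j hj
    have hUj2 := hU.le j hj
    have hsj : 0 ≤ sS U j := sS_pos hU hj
    have hbound : ∀ i, i ≤ m → lam * sS U i ≤ ε := by
      intro i hi
      have h1 := hle i hi
      have h2 := hU.pos i hi
      have h3 := U_sS hU hi
      have h4 : U i * sS U i ≤ 4 / 3 := by
        rw [h3]
        have : (0 : ℝ) ≤ (1 / 4) ^ (i + 1) := by positivity
        linarith
      have h5 : lam * (U i * sS U i) ≤ ε * U i := le_trans (mul_le_mul_of_nonneg_left h4 hlam.le) h1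
      have h6 : (lam * sS U i) * U i ≤ ε * U i := by linarith
      exact le_of_mul_le_mul_right h6 h2
    -- up part
    set E : ℝ := Real.exp (lam * (SS U j - SS U m)) with hE
    have hE0 : 0 < E := Real.exp_pos _
    have hup : U j - (if j < m then U j * F (j + 1) else 0) ≤
        U j * (R ^ t * (E * Real.exp (lam * sS U j))) := by
      by_cases hjm : j < m
      · rw [if_pos hjm]
        have h1 := ih (j + 1) hjm
        have h2 : SS U (j + 1) = SS U j + sS U j := by
          unfold SS; rw [Finset.sum_range_succ]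
        have h3 : Real.exp (lam * (SS U (j + 1) - SS U m)) = E * Real.exp (lam * sS U j) := by
          rw [hE, ← Real.exp_add]; congr 1; rw [h2]; ring
        rw [h3] at h1
        have h4 := mul_le_mul_of_nonneg_left h1 hUj.le
        linarith
      · rw [if_neg hjm]
        have hjm' : j = m := by omega
        have h1 : E = 1 := by rw [hE, hjm']; simp
        rw [h1]
        have h2 : 1 ≤ Real.exp (lam * sS U j) := Real.one_le_exp (by positivity)
        have h3 : 1 ≤ R ^ t * (1 * Real.exp (lam * sS U j)) := by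
          rw [one_mul]; exact one_le_mul_of_one_le_of_one_le hRt h2
        have := mul_le_mul_of_nonneg_left h3 hUj.le
        linarith
    have hih := ih j hj
    rcases Nat.eq_zero_or_pos j with h0 | hpos
    · subst h0
      have hBD : BD U m 0 F 0 = (1 - U 0) * F 0 + (if 0 < m then U 0 * F (0 + 1) else 0) := by
        unfold BD
        simp
      rw [hBD]
      have h1 : (1 - U 0) * (1 - F 0) ≤ (1 - U 0) * (R ^ t * E) :=
        mul_le_mul_of_nonneg_left hih (by linarith)
      have hus := U_sS hU hj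
      have hstep := step_bound (u := U 0) (s := sS U 0) (v := 0) (r := 0) (lam := lam) (ε := ε)
        hUj le_rfl hsj le_rfl hlam hε1 (hbound 0 hj) (by simp) (by rw [hus]; norm_num)
        (by norm_num) (by rw [hus]; norm_num)
      have h2 : 1 - ((1 - U 0) * F 0 + (if 0 < m then U 0 * F (0 + 1) else 0)) =
        (1 - U 0) * (1 - F 0) + (U 0 - (if 0 < m then U 0 * F (0 + 1) else 0)) := by ring
      rw [h2]
      have h3 : (1 - U 0) * (R ^ t * E) + U 0 * (R ^ t * (E * Real.exp (lam * sS U 0))) =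
        R ^ t * E * (1 + U 0 * (Real.exp (lam * sS U 0) - 1)) := by ring
      have h4 : 1 + U 0 * (Real.exp (lam * sS U 0) - 1) ≤ R := by
        rw [hR]; linarith
      have h5 : R ^ t * E * (1 + U 0 * (Real.exp (lam * sS U 0) - 1)) ≤ R ^ t * E * R :=
        mul_le_mul_of_nonneg_left h4 (by positivity)
      have h6 : R ^ (t + 1) * E = R ^ t * E * R := by ring
      linarith
    · obtain ⟨i, rfl⟩ : ∃ i, j = i + 1 := ⟨j - 1, by omega⟩
      have him : i ≤ m := by omega
      have hUi := hU.pos i him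
      have hUi2 := hU.le i him
      have hBD : BD U m 0 F (i + 1) = (1 - U (i + 1) - U i / 4) * F (i + 1) +
          (if i + 1 < m then U (i + 1) * F (i + 1 + 1) else 0) + U i / 4 * F i := by
        unfold BD
        simp [hj]
      rw [hBD]
      have h1 : (1 - U (i + 1) - U i / 4) * (1 - F (i + 1)) ≤
          (1 - U (i + 1) - U i / 4) * (R ^ t * E) :=
        mul_le_mul_of_nonneg_left hih (by linarith)
      have hdown : U i / 4 * (1 - F i) ≤ U i / 4 * (R ^ t * (E * Real.exp (-(lam * sS U i)))) := by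
        have h1 := ih i him
        have h2 : SS U (i + 1) = SS U i + sS U i := by
          unfold SS; rw [Finset.sum_range_succ]
        have h3 : Real.exp (lam * (SS U i - SS U m)) = E * Real.exp (-(lam * sS U i)) := by
          rw [hE, ← Real.exp_add]; congr 1; rw [h2]; ring
        rw [h3] at h1
        exact mul_le_mul_of_nonneg_left h1 (by positivity)
      have hus := U_sS hU hj
      have hvr := U_sS hU him
      have hsi : 0 ≤ sS U i := sS_pos hU him
      have hq : (0 : ℝ) ≤ (1 / 4) ^ (i + 1) := by positivity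
      have hq2 : ((1 : ℝ) / 4) ^ (i + 1 + 1) = (1 / 4) ^ (i + 1) / 4 := by rw [pow_succ]; ring
      have hstep := step_bound (u := U (i + 1)) (s := sS U (i + 1)) (v := U i / 4) (r := sS U i)
        (lam := lam) (ε := ε) hUj (by positivity) hsj hsi hlam hε1 (hbound _ hj)
        (mul_le_mul_of_nonneg_left (hbound i him) (by positivity))
        (by rw [hus, hq2]; linarith)
        (by
          have : U i / 4 * sS U i = (U i * sS U i) / 4 := by ring
          rw [this, hvr]; linarith)
        (by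
          have : U i / 4 * sS U i = (U i * sS U i) / 4 := by ring
          rw [this, hvr, hus, hq2]; ring)
      have h2 : 1 - ((1 - U (i + 1) - U i / 4) * F (i + 1) +
          (if i + 1 < m then U (i + 1) * F (i + 1 + 1) else 0) + U i / 4 * F i) =
        (1 - U (i + 1) - U i / 4) * (1 - F (i + 1)) +
          (U (i + 1) - (if i + 1 < m then U (i + 1) * F (i + 1 + 1) else 0)) +
          U i / 4 * (1 - F i) := by ring
      rw [h2]
      have h3 : (1 - U (i + 1) - U i / 4) * (R ^ t * E) +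
          U (i + 1) * (R ^ t * (E * Real.exp (lam * sS U (i + 1)))) +
          U i / 4 * (R ^ t * (E * Real.exp (-(lam * sS U i)))) =
        R ^ t * E * (1 + (U (i + 1) * (Real.exp (lam * sS U (i + 1)) - 1) +
          U i / 4 * (Real.exp (-(lam * sS U i)) - 1))) := by ring
      have h4 : 1 + (U (i + 1) * (Real.exp (lam * sS U (i + 1)) - 1) +
          U i / 4 * (Real.exp (-(lam * sS U i)) - 1)) ≤ R := by
        rw [hR]; linarith
      have h5 := mul_le_mul_of_nonneg_left h4 (show 0 ≤ R ^ t * E by positivity)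
      have h6 : R ^ (t + 1) * E = R ^ t * E * R := by ring
      linarith

theorem ladl : LADL_stmt := by
  intro U m lam ε hU hlam hε hε1 hle t
  have h := ladl_aux U m lam ε hU hlam hε hε1 hle t 0 (Nat.zero_le _)
  refine h.trans ?_
  have h0 : SS U 0 = 0 := by unfold SS; simp
  rw [h0]
  have h1 : (1 + (1 + 3 / 2 * ε) * lam) ^ t ≤ Real.exp ((1 + 2 * ε) * lam * t) := by
    have h2 : 1 + (1 + 3 / 2 * ε) * lam ≤ Real.exp ((1 + 2 * ε) * lam) := by
      have := Real.add_one_le_exp ((1 + 2 * ε) * lam)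
      nlinarith [mul_pos hε hlam]
    calc (1 + (1 + 3 / 2 * ε) * lam) ^ t ≤ (Real.exp ((1 + 2 * ε) * lam)) ^ t :=
          pow_le_pow_left₀ (by positivity) h2 t
      _ = Real.exp ((1 + 2 * ε) * lam * t) := by
          rw [← Real.exp_nat_mul]; congr 1; ring
  calc (1 + (1 + 3 / 2 * ε) * lam) ^ t * Real.exp (lam * (0 - SS U m)) ≤
      Real.exp ((1 + 2 * ε) * lam * t) * Real.exp (lam * (0 - SS U m)) :=
        mul_le_mul_of_nonneg_right h1 (Real.exp_pos _).le
    _ = Real.exp (lam * ((1 + 2 * ε) * t - SS U m)) := by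
        rw [← Real.exp_add]; congr 1; ring

end H98C
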