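import Pool.Agent.Helper72_Cut.Statements
import Pool.Agent.Helper91_CW.Core

/-!
# Squad MP_1dbb29_pr : module D1 (LAW)
-/

namespace H98C

open Finset Equiv H72C Pool.Agent.Helper91_CW

section
variable {V : Type} [Fintype V] (H : SimpleGraph V)

open Classical in
/-- transition probability of the walk of a card, without laziness, divided by `n` -/
noncomputable def cw (x y : V) : ℝ :=
  if H.Adj x y then (1 / (Fintype.card V : ℝ)) * (1 / (H.degree x : ℝ)) else 0

theorem wG_eq (x y : V) : wG H x y = (1 / 2) * (cw H x y + cw H y x) := by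
  classical
  unfold wG cw
  by_cases h : H.Adj x y
  · rw [if_pos h, if_pos h, if_pos h.symm]
    simp only [one_div, mul_inv]
    ring
  · have h' : ¬ H.Adj y x := fun h' => h h'.symm
    rw [if_neg h, if_neg h, if_neg h']
    ring

theorem sum_wG {M : Type} [AddCommGroup M] [Module ℝ M] (F : V → V → M)
    (hF : ∀ x y, F x y = F y x) :
    ∑ x, ∑ y, wG H x y • F x y = ∑ x, ∑ y, cw H x y • F x y := by
  have h1 : ∑ x, ∑ y, wG H x y • F x y =
      (1 / 2 : ℝ) • (∑ x, ∑ y, cw H x y • F x y) + (1 / 2 : ℝ) • (∑ x, ∑ y, cw H y x • F x y) := by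
    rw [Finset.smul_sum, Finset.smul_sum, ← Finset.sum_add_distrib]
    refine Finset.sum_congr rfl fun x _ => ?_
    rw [Finset.smul_sum, Finset.smul_sum, ← Finset.sum_add_distrib]
    refine Finset.sum_congr rfl fun y _ => ?_
    rw [wG_eq, smul_smul, smul_smul, ← add_smul]
    congr 1; ring
  have h2 : ∑ x, ∑ y, cw H y x • F x y = ∑ x, ∑ y, cw H x y • F x y := by
    rw [Finset.sum_comm]
    refine Finset.sum_congr rfl fun x _ => Finset.sum_congr rfl fun y _ => ?_
    rw [hF y x]
  rw [h1, h2, ← add_smul]
  norm_num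

open Classical in
theorem sum_cw (hpos : ∀ x, H.degree x ≠ 0) (x : V) : ∑ y, cw H x y = 1 / (Fintype.card V : ℝ) := by
  unfold cw
  rw [← Finset.sum_filter, Finset.sum_const, nsmul_eq_mul]
  have h1 : (Finset.univ.filter (fun y => H.Adj x y)).card = H.degree x := by
    rw [← SimpleGraph.card_neighborFinset_eq_degree]; congr 1; ext; simp
  have h2 : (H.degree x : ℝ) ≠ 0 := by exact_mod_cast hpos x
  rw [h1]
  field_simp

open Classical in
theorem wtot_wG (hpos : ∀ x, H.degree x ≠ 0) (hn : (Fintype.card V : ℝ) ≠ 0) :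
    wtot (wG H) = 1 / 2 := by
  unfold wtot
  have h := sum_wG H (fun _ _ => (1 : ℝ)) (fun _ _ => rfl)
  simp only [smul_eq_mul, mul_one] at h
  rw [h, Finset.sum_congr rfl fun x _ => sum_cw H hpos x]
  rw [Finset.sum_const, nsmul_eq_mul, Finset.card_univ]
  field_simp

end

section
variable {V : Type} [Fintype V] [DecidableEq V] (H : SimpleGraph V)

open Classical in
theorem nu_wG (hpos : ∀ x, H.degree x ≠ 0) (hn : (Fintype.card V : ℝ) ≠ 0) :
    nu (wG H) = (1 / 2 : ℝ) • (1 : Alg (Perm V)) +
      (1 / 2 : ℝ) • ∑ x, ∑ y, cw H x y • (pt (swap x y) : Alg (Perm V)) := by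
  unfold nu
  rw [wtot_wG H hpos hn]
  have h := sum_wG H (fun x y => (pt (swap x y) : Alg (Perm V))) (fun x y => by rw [swap_comm])
  congr 1
  · norm_num
  · congr 1

open Classical in
theorem coeff_step (hpos : ∀ x, H.degree x ≠ 0) (hn : (Fintype.card V : ℝ) ≠ 0)
    (X : Alg (Perm V)) (σ : Perm V) :
    (X * nu (wG H)).coeff σ = (1 / 2) * X.coeff σ +
      (1 / 2) * ∑ x, ∑ y, cw H x y * X.coeff (σ * swap x y) := by
  rw [nu_wG H hpos hn, mul_add, mul_smul_comm, mul_one, mul_smul_comm, Finset.mul_sum]
  rw [MonoidAlgebra.coeff_add, MonoidAlgebra.coeff_smul, MonoidAlgebra.coeff_smul,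
    MonoidAlgebra.coeff_sum]
  simp only [Finsupp.add_apply, Finsupp.smul_apply, Finsupp.finsetSum_apply, smul_eq_mul]
  congr 2
  refine Finset.sum_congr rfl fun x _ => ?_
  rw [Finset.mul_sum, MonoidAlgebra.coeff_sum]
  simp only [Finsupp.finsetSum_apply]
  refine Finset.sum_congr rfl fun y _ => ?_
  rw [mul_smul_comm, MonoidAlgebra.coeff_smul, Finsupp.smul_apply, smul_eq_mul]
  congr 1
  rw [coeff_mul_pt, swap_inv]

open Classical in
theorem law_eq (hpos : ∀ x, H.degree x ≠ 0) (n : ℕ) (e : V ≃ Fin n) (hn : n ≠ 0) (t : ℕ) :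
    ∀ σ : Perm V, law (H.map e.toEmbedding) t (e.permCongr σ) = (nu (wG H) ^ t).coeff σ := by
  have hcard : Fintype.card V = n := by rw [Fintype.card_congr e, Fintype.card_fin]
  have hn' : (Fintype.card V : ℝ) ≠ 0 := by rw [hcard]; exact_mod_cast hn
  induction t with
  | zero =>
    intro σ
    rw [pow_zero]
    unfold law
    by_cases h : σ = 1
    · subst h
      have : e.permCongr (1 : Perm V) = 1 := by ext x; simp
      rw [this, if_pos rfl]
      have : (1 : Alg (Perm V)) = pt 1 := rfl
      rw [this]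
      simp [pt]
    · have h1 : e.permCongr σ ≠ 1 := by
        intro h'
        apply h
        apply e.permCongr.injective
        rw [h']; ext x; simp
      rw [if_neg h1]
      have : (1 : Alg (Perm V)) = pt 1 := rfl
      rw [this]
      simp [pt, Finsupp.single_eq_of_ne h]
  | succ t ih =>
    intro σ
    rw [pow_succ, coeff_step H hpos hn']
    unfold law
    rw [ih σ]
    congr 2
    rw [← e.sum_comp]
    refine Finset.sum_congr rfl fun x _ => ?_
    rw [← e.sum_comp]
    refine Finset.sum_congr rfl fun y _ => ?_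
    have hadj : (H.map e.toEmbedding).Adj (e x) (e y) ↔ H.Adj x y := by
      have := SimpleGraph.map_adj_apply (G := H) (f := e.toEmbedding) (a := x) (b := y)
      simpa using this
    have hdeg : (H.map e.toEmbedding).degree (e x) = H.degree x := by
      have := (SimpleGraph.Iso.map e H).degree_eq x
      convert this
      · rfl
      · rfl
    have hsw : e.permCongr σ * swap (e x) (e y) = e.permCongr (σ * swap x y) := by
      have h0 : ∀ z, e.symm (swap (e x) (e y) z) = swap x y (e.symm z) := by
        intro z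
        obtain ⟨w, rfl⟩ := e.surjective z
        rw [Equiv.swap_apply_def, Equiv.swap_apply_def, e.symm_apply_apply]
        simp only [e.injective.eq_iff]
        split_ifs <;> simp
      refine Equiv.ext fun z => ?_
      simp only [Perm.mul_apply, Equiv.permCongr_apply, h0]
    rw [hsw, ih]
    unfold cw
    by_cases h : H.Adj x y
    · rw [if_pos (hadj.2 h), if_pos h, hcard]
      congr 4
      convert hdeg
    · rw [if_neg (fun h' => h (hadj.1 h')), if_neg h, zero_mul]

theorem law_stmt : LAW_stmt := by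
  intro V _ _ H n e hconn hn t
  classical
  have hcard : Fintype.card V = n := by rw [Fintype.card_congr e, Fintype.card_fin]
  have : Nontrivial V := Fintype.one_lt_card_iff_nontrivial.1 (by omega)
  have hpos : ∀ x, H.degree x ≠ 0 := fun x =>
    (hconn.preconnected.degree_pos_of_nontrivial x).ne'
  unfold tvd nrm
  congr 1
  rw [← e.permCongr.sum_comp]
  refine Finset.sum_congr rfl fun σ _ => ?_
  have h1 := law_eq H (by intro x; convert hpos x) n e (by omega) t σ
  rw [h1, MonoidAlgebra.coeff_sub, Finsupp.sub_apply, coeff_unif, if_pos (Finset.mem_univ _),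
    Finset.card_univ, Fintype.card_perm, hcard, one_div]

end

end H98C
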